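import Pool.Agent.H13.MA.Stmts

/-!
Module DEL: the delta system lemma for uncountable families of finite sets, in models of ZFC.
-/

set_option linter.unusedVariables false
set_option synthInstance.maxSize 100000

namespace SW

section
variable {M : Type} [SetStr M] [ZF M]

/-- an uncountable family of finite sets contains an uncountable family of sets of equal size -/
theorem del_split (hC : CbFacts M) {A : M} {t : M → M} (ht : Fn1 t) (hA : ¬ Cb A)
    (hf : ∀ p, E p A → Fnt (t p)) :
    ∃ n, E n om ∧ ¬ Cb (sep A (fun p => card (t p) = n)) := by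
  by_contra hcon
  apply hA
  have h1 : Cb (sUn (img om (fun n : M => sep A (fun p => card (t p) = n)))) := by
    refine hC.iUn (fun n : M => sep A (fun p => card (t p) = n)) inferInstance hC.om
      (fun n hn => ?_)
    by_contra h
    exact hcon ⟨n, hn, h⟩
  refine hC.sub h1 (fun p hp => ?_)
  rw [mem_sUn]
  exact ⟨_, (mem_img' inferInstance).2 ⟨card (t p), finF.card_om (hf p hp), rfl⟩,
    (mem_sep' inferInstance).2 ⟨hp, rfl⟩⟩

/-- `A₁ ⊆ A` is uncountable and all `s p`, `p ∈ A₁`, contain the finite set `r` and have `n` more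
elements -/
def DelQ (s : M → M) (A n A1 r : M) : Prop := Sub A1 A ∧ ¬ Cb A1 ∧ Fnt r ∧
  ∀ p, E p A1 → Sub r (s p) ∧ card (diff (s p) r) = n

theorem del_main (hC : CbFacts M) {w : M} (hw : IsW w)
    (hS : ∀ (X : M) (P : M → M → Prop), Cl2 P →
      (∀ c, Sub c X → Cb c → ∃ b, E b X ∧ P c b) →
      ∃ V, ∀ a, E a w → E (app V a) X ∧ P (img a (fun b => app V b)) (app V a))
    (A : M) (s : M → M) (hs : Fn1 s) (hA : ¬ Cb A) (hf : ∀ p, E p A → Fnt (s p)) :
    ∃ A' r, Sub A' A ∧ ¬ Cb A' ∧ Fnt r ∧ (∀ p, E p A' → Sub r (s p)) ∧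
      ∀ p q, E p A' → E q A' → p ≠ q → ∀ x, E x (s p) → E x (s q) → E x r := by
  have hCl : Cl (fun n : M => ∃ A1 r, DelQ s A n A1 r) := by
    unfold DelQ; infer_instance
  -- some `n`
  have hex : ∃ n : M, ∃ A1 r, DelQ s A n A1 r := by
    obtain ⟨n, hn, h⟩ := del_split hC hs hA hf
    refine ⟨n, sep A (fun p => card (s p) = n), emp, fun p hp => ((mem_sep' inferInstance).1 hp).1,
      h, finF.emp, fun p hp => ⟨fun z hz => absurd hz (not_mem_emp z), ?_⟩⟩
    have h1 : diff (s p) emp = s p := ext fun z => by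
      rw [mem_diff]; exact ⟨fun h => h.1, fun h => ⟨h, not_mem_emp z⟩⟩
    rw [h1]
    exact ((mem_sep' (C := fun p : M => card (s p) = n) inferInstance).1 hp).2
  obtain ⟨n, ⟨A1, r, hsub, hunc, hr, hA1⟩, hmin⟩ := mem_min hCl hex
  -- every other element lies in countably many sets only
  have hcb : ∀ x, ¬ E x r → Cb (sep A1 (fun p => E x (s p))) := by
    intro x hx
    by_contra hx1
    have ht : Fn1 (fun p : M => diff (s p) (ins x r)) := inferInstance
    obtain ⟨k, hk, h⟩ := del_split hC (A := sep A1 (fun p => E x (s p))) ht hx1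
      (fun p hp => by
        rw [mem_sep' inferInstance] at hp
        exact finF.sub (hf p (hsub p hp.1)) (fun z hz => (mem_diff.1 hz).1))
    have hne : ∃ p, E p (sep (sep A1 (fun p => E x (s p)))
        (fun p => card (diff (s p) (ins x r)) = k)) := by
      by_contra hne
      apply h
      have : sep (sep A1 (fun p => E x (s p))) (fun p => card (diff (s p) (ins x r)) = k) = emp :=
        eq_emp fun z hz => hne ⟨z, hz⟩
      rw [this]
      exact hC.fin finF.emp
    obtain ⟨p, hp⟩ := hne
    rw [mem_sep' inferInstance, mem_sep' inferInstance] at hp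
    obtain ⟨⟨hp1, hp2⟩, hp3⟩ := hp
    have hlt : E k n := by
      rw [← hp3, ← (hA1 p hp1).2]
      refine finF.card_lt (finF.sub (hf p (hsub p hp1)) (fun z hz => (mem_diff.1 hz).1))
        (fun z hz => ?_) (fun he => ?_)
      · rw [mem_diff, mem_ins] at hz
        rw [mem_diff]
        exact ⟨hz.1, fun h => hz.2 (Or.inl h)⟩
      · have h1 : E x (diff (s p) r) := mem_diff.2 ⟨hp2, hx⟩
        rw [← he, mem_diff, mem_ins] at h1
        exact h1.2 (Or.inr rfl)
    refine hmin k hlt ⟨_, ins x r, ?_, h, finF.ins hr, ?_⟩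
    · intro q hq
      rw [mem_sep' inferInstance, mem_sep' inferInstance] at hq
      exact hsub q hq.1.1
    · intro q hq
      rw [mem_sep' inferInstance, mem_sep' inferInstance] at hq
      refine ⟨fun z hz => ?_, hq.2⟩
      rw [mem_ins] at hz
      rcases hz with hz | rfl
      · exact (hA1 q hq.1.1).1 z hz
      · exact hq.1.2
  -- the transfinite choice
  obtain ⟨V, hV⟩ := hS A1 (fun c b => ¬ E b c ∧ ∀ p, E p c → ∀ x, E x (s p) → E x (s b) → E x r)
    inferInstance (fun c hc hcc => by
      by_contra hcon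
      apply hunc
      have h1 : Cb (sUn (img c (fun p : M => sUn (img (diff (s p) r)
          (fun x : M => sep A1 (fun b => E x (s b))))))) := by
        refine hC.iUn (fun p : M => sUn (img (diff (s p) r)
          (fun x : M => sep A1 (fun b => E x (s b))))) inferInstance hcc (fun p hp => ?_)
        refine hC.iUn (fun x : M => sep A1 (fun b => E x (s b))) inferInstance
          (hC.fin (finF.sub (hf p (hsub p (hc p hp))) (fun z hz => (mem_diff.1 hz).1)))
          (fun x hx => hcb x (mem_diff.1 hx).2)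
      refine hC.sub (hC.bun hcc h1) (fun b hb => ?_)
      rw [mem_bun]
      by_cases hbc : E b c
      · exact Or.inl hbc
      · right
        have h2 : ∃ p, E p c ∧ ∃ x, E x (s p) ∧ E x (s b) ∧ ¬ E x r := by
          by_contra h3
          refine hcon ⟨b, hb, hbc, fun p hp x hx hx' => ?_⟩
          by_contra h4
          exact h3 ⟨p, hp, x, hx, hx', h4⟩
        obtain ⟨p, hp, x, hx, hx', hxr⟩ := h2
        rw [mem_sUn]
        refine ⟨_, (mem_img' inferInstance).2 ⟨p, hp, rfl⟩, ?_⟩
        rw [mem_sUn]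
        exact ⟨_, (mem_img' inferInstance).2 ⟨x, mem_diff.2 ⟨hx, hxr⟩, rfl⟩,
          (mem_sep' inferInstance).2 ⟨hb, hx'⟩⟩)
  have hV1 : Fn1 (fun a : M => app V a) := inferInstance
  have hin : ∀ a b, E b w → E a b → E (app V a) (img b (fun a => app V a)) := fun a b hb hab =>
    (mem_img' hV1).2 ⟨a, hab, rfl⟩
  refine ⟨img w (fun a => app V a), r, fun p hp => ?_, fun hcb' => ?_, hr, fun p hp => ?_,
    fun p q hp hq hpq x hxp hxq => ?_⟩
  · rw [mem_img' hV1] at hp
    obtain ⟨a, ha, rfl⟩ := hp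
    exact hsub _ (hV a ha).1
  · refine hw.2.1 (hC.inj (fun a => app V a) hV1 hcb' (fun a ha => (mem_img' hV1).2 ⟨a, ha, rfl⟩)
      (fun a b ha hb hab => ?_))
    rcases (hw.1.mem ha).tri (hw.1.mem hb) with h | h | h
    · exact absurd (by rw [← hab]; exact hin a b hb h) (hV b hb).2.1
    · exact h
    · exact absurd (by rw [hab]; exact hin b a ha h) (hV a ha).2.1
  · rw [mem_img' hV1] at hp
    obtain ⟨a, ha, rfl⟩ := hp
    exact (hA1 _ (hV a ha).1).1
  · rw [mem_img' hV1] at hp hq
    obtain ⟨a, ha, rfl⟩ := hp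
    obtain ⟨b, hb, rfl⟩ := hq
    rcases (hw.1.mem ha).tri (hw.1.mem hb) with h | h | h
    · exact (hV b hb).2.2 _ (hin a b hb h) x hxp hxq
    · exact absurd (by rw [h]) hpq
    · exact (hV a ha).2.2 _ (hin b a ha h) x hxq hxp

end

/-- DEL -/
theorem ma_del (hseq : SEQStmt) (hcbt : CBTStmt) (hw0 : W0Stmt) : DELStmt := by
  intro M _ _ A s hs hA hf
  obtain ⟨w, hw⟩ := hw0 M
  exact del_main (hcbt M) hw (fun X P hP h => hseq M w X P hw hP h) A s hs hA hf

end SW
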