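import Pool.Agent.H13.MA.Stmts

/-!
Module WO: every set is covered by the values of a function on an ordinal, in models of ZFC.
-/

set_option linter.unusedVariables false
set_option synthInstance.maxSize 100000

namespace SW

section
variable {M : Type} [SetStr M] [ZF M]

/-- the step of the recursion: choose a member of `X` which is not yet a value -/
noncomputable def woF (g X : M) (a h : M) : M := app g (diff X (img a (fun c : M => app h c)))

instance woF_df (g X : M) : Fn2 (woF g X) := by unfold woF; infer_instance

theorem wo_eq (g X a : M) :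
    mrec (woF g X) a = app g (diff X (img a (fun c : M => mrec (woF g X) c))) := by
  rw [mrec_eq (woF_df g X)]
  have hm : Fn1 (fun x : M => mrec (woF g X) x) := mrec_df
  have e : img a (fun c : M => app (gr a (mrec (woF g X))) c)
      = img a (fun c : M => mrec (woF g X) c) := by
    refine ext fun y => ?_
    rw [mem_img' inferInstance, mem_img' hm]
    refine exists_congr fun c => and_congr_right fun hc => ?_
    rw [app_gr hm hc]
  exact congrArg (fun z : M => app g (diff X z)) e

theorem wo_main (X g : M) (hg : ChF X g) : ∃ a f : M, Ord a ∧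
    ∀ y, E y X → ∃ b, E b a ∧ y = app f b := by
  have hm : Fn1 (fun x : M => mrec (woF g X) x) := mrec_df
  obtain ⟨a, ha, hn⟩ := hartF X
  by_contra hcon
  -- all the differences are nonempty
  have h1 : ∀ b, E b a → E (mrec (woF g X) b) (diff X (img b (fun c : M => mrec (woF g X) c))) := by
    intro b hb
    have h2 : ∃ y, E y (diff X (img b (fun c : M => mrec (woF g X) c))) := by
      by_contra h3
      apply hcon
      refine ⟨b, gr b (fun c : M => mrec (woF g X) c), ha.mem hb, fun y hy => ?_⟩
      have h4 : E y (img b (fun c : M => mrec (woF g X) c)) := by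
        by_contra h5
        exact h3 ⟨y, mem_diff.2 ⟨hy, h5⟩⟩
      rw [mem_img' hm] at h4
      obtain ⟨c, hc, rfl⟩ := h4
      exact ⟨c, hc, (app_gr hm hc).symm⟩
    have h6 := hg _ (fun z hz => (mem_diff.1 hz).1) h2
    rwa [← wo_eq] at h6
  refine hn ⟨gr a (fun c : M => mrec (woF g X) c), fun b hb => ?_, fun b y y' hb h h' => ?_,
    fun b b' y hb hb' h h' => ?_⟩
  · exact ⟨mrec (woF g X) b, (mem_diff.1 (h1 b hb)).1, (opair_mem_gr hm).2 ⟨hb, rfl⟩⟩
  · rw [opair_mem_gr hm] at h h'
    rw [h.2, h'.2]
  · rw [opair_mem_gr hm] at h h'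
    have e : mrec (woF g X) b = mrec (woF g X) b' := h.2.symm.trans h'.2
    rcases (ha.mem hb).tri (ha.mem hb') with h2 | h2 | h2
    · exfalso
      refine (mem_diff.1 (h1 b' hb')).2 ?_
      rw [mem_img' hm]
      exact ⟨b, h2, e.symm⟩
    · exact h2
    · exfalso
      refine (mem_diff.1 (h1 b hb)).2 ?_
      rw [mem_img' hm]
      exact ⟨b', h2, e⟩

end

/-- WO -/
theorem ma_wo (h : ACFStmt) : WOStmt := by
  intro M _ _ X
  obtain ⟨g, hg⟩ := h M X
  exact wo_main X g hg

end SW
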