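import Pool.Agent.H13.MA.Stmts

/-!
Module ZORN: Zorn's lemma for inclusion, in models of ZFC.
-/

set_option linter.unusedVariables false
set_option synthInstance.maxSize 100000

namespace SW

section
variable {M : Type} [SetStr M] [ZF M]

/-- the members of `S` which are proper supersets of all `f c`, `c ∈ a` -/
noncomputable def znT (S a : M) (f : M → M) : M :=
  sep S (fun x => ∀ c, E c a → Sub (f c) x ∧ f c ≠ x)

theorem zn_mem {S a x : M} {f : M → M} (hf : Fn1 f) :
    E x (znT S a f) ↔ E x S ∧ ∀ c, E c a → Sub (f c) x ∧ f c ≠ x := by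
  unfold znT
  exact mem_sep' inferInstance

/-- the step of the recursion -/
noncomputable def znF (g S : M) (a h : M) : M :=
  app g (sep S (fun x => ∀ c, E c a → Sub (app h c) x ∧ app h c ≠ x))

instance znF_df (g S : M) : Fn2 (znF g S) := by unfold znF; infer_instance

theorem zn_eq (g S a : M) :
    mrec (znF g S) a = app g (znT S a (fun c : M => mrec (znF g S) c)) := by
  rw [mrec_eq (znF_df g S)]
  have hm : Fn1 (fun x : M => mrec (znF g S) x) := mrec_df
  have e : znT S a (fun c : M => app (gr a (mrec (znF g S))) c)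
      = znT S a (fun c : M => mrec (znF g S) c) := by
    refine ext fun y => ?_
    rw [zn_mem inferInstance, zn_mem hm]
    refine and_congr_right fun _ => forall_congr' fun c => forall_congr' fun hc => ?_
    rw [app_gr hm hc]
  exact congrArg (fun z : M => app g z) e

theorem zn_main (S g : M) (hg : ChF S g) (hne : ∃ x, E x S)
    (hch : ∀ c, Sub c S → (∃ x, E x c) → (∀ x y, E x c → E y c → Sub x y ∨ Sub y x) →
      ∃ u, E u S ∧ ∀ x, E x c → Sub x u) :
    ∃ m, E m S ∧ ∀ x, E x S → Sub m x → x = m := by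
  have hm : Fn1 (fun x : M => mrec (znF g S) x) := mrec_df
  by_contra hcon
  -- all values of the recursion are as wanted
  have key : ∀ a : M, Ord a → E (mrec (znF g S) a) (znT S a (fun c : M => mrec (znF g S) c)) := by
    intro a
    refine mem_induction (C := fun a : M => Ord a →
      E (mrec (znF g S) a) (znT S a (fun c : M => mrec (znF g S) c)))
      (by unfold znT; infer_instance) ?_ a
    intro a ih ha
    have ih' : ∀ c, E c a → E (mrec (znF g S) c) S ∧
        ∀ d, E d c → Sub (mrec (znF g S) d) (mrec (znF g S) c) := by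
      intro c hc
      have h1 := ih c hc (ha.mem hc)
      rw [zn_mem hm] at h1
      exact ⟨h1.1, fun d hd => (h1.2 d hd).1⟩
    have h2 : ∃ y, E y (znT S a (fun c : M => mrec (znF g S) c)) := by
      by_cases hea : ∃ c, E c a
      · obtain ⟨c0, hc0⟩ := hea
        obtain ⟨u, hu, hub⟩ := hch (img a (fun c : M => mrec (znF g S) c))
          (fun z hz => by
            rw [mem_img' hm] at hz
            obtain ⟨c, hc, rfl⟩ := hz
            exact (ih' c hc).1)
          ⟨mrec (znF g S) c0, (mem_img' hm).2 ⟨c0, hc0, rfl⟩⟩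
          (fun x y hx hy => by
            rw [mem_img' hm] at hx hy
            obtain ⟨c, hc, rfl⟩ := hx
            obtain ⟨d, hd, rfl⟩ := hy
            rcases (ha.mem hc).tri (ha.mem hd) with h3 | h3 | h3
            · exact Or.inl ((ih' d hd).2 c h3)
            · rw [h3]; exact Or.inl (Sub.refl _)
            · exact Or.inr ((ih' c hc).2 d h3))
        have h4 : ∃ x, E x S ∧ Sub u x ∧ x ≠ u := by
          by_contra h5
          refine hcon ⟨u, hu, fun x hx hux => ?_⟩
          by_contra h6
          exact h5 ⟨x, hx, hux, h6⟩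
        obtain ⟨x, hx, hux, hne'⟩ := h4
        refine ⟨x, (zn_mem hm).2 ⟨hx, fun c hc => ?_⟩⟩
        have h7 : Sub (mrec (znF g S) c) u := hub _ ((mem_img' hm).2 ⟨c, hc, rfl⟩)
        refine ⟨h7.trans hux, fun h8 => hne' ?_⟩
        have h9 : Sub x u := by rw [← h8]; exact h7
        exact h9.antisymm hux
      · obtain ⟨x, hx⟩ := hne
        exact ⟨x, (zn_mem hm).2 ⟨hx, fun c hc => absurd ⟨c, hc⟩ hea⟩⟩
    have h10 := hg _ (fun z hz => ((zn_mem hm).1 hz).1) h2
    rwa [← zn_eq] at h10
  obtain ⟨a, ha, hn⟩ := hartF S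
  refine hn ⟨gr a (fun c : M => mrec (znF g S) c), fun b hb => ?_, fun b y y' hb h h' => ?_,
    fun b b' y hb hb' h h' => ?_⟩
  · exact ⟨mrec (znF g S) b, ((zn_mem hm).1 (key b (ha.mem hb))).1,
      (opair_mem_gr hm).2 ⟨hb, rfl⟩⟩
  · rw [opair_mem_gr hm] at h h'
    rw [h.2, h'.2]
  · rw [opair_mem_gr hm] at h h'
    have e : mrec (znF g S) b = mrec (znF g S) b' := h.2.symm.trans h'.2
    rcases (ha.mem hb).tri (ha.mem hb') with h2 | h2 | h2
    · exact absurd e (((zn_mem hm).1 (key b' (ha.mem hb'))).2 b h2).2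
    · exact h2
    · exact absurd e.symm (((zn_mem hm).1 (key b (ha.mem hb))).2 b' h2).2

end

/-- ZORN -/
theorem ma_zorn (h : ACFStmt) : ZORNStmt := by
  intro M _ _ S hne hch
  obtain ⟨g, hg⟩ := h M S
  exact zn_main S g hg hne hch

end SW
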